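import Pool.Agent.H34.Opz.One

set_option autoImplicit false

/-!
# Optimal polynomial approximants of `(1 - z)⁻²`: the points of the circle with a zero-free sector

`IsOPA ω f n q` (`q` is the `n`-th optimal polynomial approximant of `1 / f` in `H²_ω`) and
`IsCyclic ω f` are defined in `Pool.Agent.H34.Opz.OpDefs`.
-/

namespace Pool.Agent.Results.MP_48c50a_an.ExactBadSet

open Pool.Agent.H34.Opz Polynomial Filter Topology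

/-- `ω` is a weight: `ω 0 = 1`, `ω k > 0`, `ω k / ω (k + 1) → 1`. -/
def IsWeight (ω : ℕ → ℝ) : Prop :=
  ω 0 = 1 ∧ (∀ k, 0 < ω k) ∧ Tendsto (fun k => ω k / ω (k + 1)) atTop (𝓝 1)

/-- The sector `{ζ + r e^{iθ} : 0 < r < ρ, θ₁ < θ < θ₂}` is zero-free for `f` in `H²_ω`. -/
def ZeroFree (ω : ℕ → ℝ) (f : ℂ[X]) (ζ : ℂ) (ρ θ₁ θ₂ : ℝ) : Prop :=
  ∀ (n : ℕ) (q : ℂ[X]), IsOPA ω f n q → ∀ r θ : ℝ, 0 < r → r < ρ → θ₁ < θ → θ < θ₂ →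
    q.eval (ζ + r * Complex.exp (θ * Complex.I)) ≠ 0

/-- For `f = (z - 1)²`: the sector `{1 + r e^{iθ} : 0 < r < 1/10, |θ - π| < 1/10}` is zero-free
for every positive sequence `ω` at all. On the other hand there is a non-increasing weight `ω`,
for which `f` is cyclic, such that no point of the unit circle other than `1` is the vertex of a
zero-free sector. -/
theorem result :
    (∀ ω : ℕ → ℝ, (∀ k, 0 < ω k) →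
      (∀ n, ∃! q : ℂ[X], IsOPA ω ((X - C 1) ^ 2) n q) ∧
      ZeroFree ω ((X - C 1) ^ 2) 1 (1 / 10) (Real.pi - 1 / 10) (Real.pi + 1 / 10)) ∧
    ∃ ω : ℕ → ℝ, IsWeight ω ∧ Antitone ω ∧ IsCyclic ω ((X - C 1) ^ 2) ∧
      ∀ ζ : ℂ, ‖ζ‖ = 1 →
        ((∃ ρ θ₁ θ₂ : ℝ, 0 < ρ ∧ θ₁ < θ₂ ∧ ZeroFree ω ((X - C 1) ^ 2) ζ ρ θ₁ θ₂) ↔ ζ = 1) := by
  have A : ∀ ω : ℕ → ℝ, (∀ k, 0 < ω k) →
      (∀ n, ∃! q : ℂ[X], IsOPA ω ((X - C 1) ^ 2) n q) ∧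
      ZeroFree ω ((X - C 1) ^ 2) 1 (1 / 10) (Real.pi - 1 / 10) (Real.pi + 1 / 10) := by
    intro ω hω
    obtain ⟨c, hc, rfl⟩ : ∃ c : ℕ → ℝ, (∀ k, 0 < c k) ∧ ω = fun k => (c k)⁻¹ :=
      ⟨fun k => (ω k)⁻¹, fun k => inv_pos.2 (hω k), by simp⟩
    refine ⟨fun n => ?_, fun n q hq r θ h1 h2 h3 h4 => one_sector c hc n q hq r θ h1 h2 h3 h4⟩
    obtain ⟨q, h1, h2, -⟩ := opa_iff c hc n (det_pos c hc (n + 1)).ne'
    exact ⟨q, h1, h2⟩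
  refine ⟨A, ?_⟩
  obtain ⟨ω, h0, h1, h2, h3, h4, h5⟩ := main
  refine ⟨ω, ⟨h0, h1, h3⟩, h2, h4, fun ζ hζ => ⟨fun h => ?_, fun h => ?_⟩⟩
  · by_contra hne
    obtain ⟨ρ, θ₁, θ₂, k1, k2, k3⟩ := h
    obtain ⟨n, q, q1, r, θ, r1, r2, r3, r4, r5⟩ := h5 ζ hζ hne ρ θ₁ θ₂ k1 k2
    exact k3 n q q1 r θ r1 r2 r3 r4 r5
  · subst h
    exact ⟨1 / 10, Real.pi - 1 / 10, Real.pi + 1 / 10, by norm_num, by linarith, (A ω h1).2⟩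

end Pool.Agent.Results.MP_48c50a_an.ExactBadSet
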